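import Pool.Agent.Helper53.TF.OneMain

/-!
# T4' (MP_12a1af): THE ONE-SIDED HALF OF BLOCK F
-/

namespace Pool.Agent.Helper53.TF

open Pool.Agent.Helper5.ET Pool.Agent.Helper27.T4
open Pool.Agent.Helper25.T4 (XX_lt XX_coprime pow_le_Nj Nj_pos Nj_mono)

/-- a short interval is shorter than the modulus of the head -/
theorem short_le {l j : ℕ} {f0 : Fin 3} (hj : 200 * j ≤ 41 * l)
    (hc : (208 / 1000 : ℝ) * l ≤ cnt f0 l) : Nj j ≤ pr f0 ^ cnt f0 l := by
  have h1 := Nj_le j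
  have h2 : ((pr f0 : ℝ)) ^ cnt f0 l = Real.exp (cnt f0 l * lam f0) := pow_eq_exp f0 _
  have h3 : Lam * j ≤ cnt f0 l * lam f0 := by
    have hL := one_le_Lam
    have hl := lam_ge f0
    have hj' : (200 : ℝ) * j ≤ 41 * l := by exact_mod_cast hj
    have hl0 : (0 : ℝ) ≤ l := Nat.cast_nonneg _
    have e1 : Lam * j ≤ Lam * (41 / 200 * l) := by
      apply mul_le_mul_of_nonneg_left _ (by linarith)
      linarith
    have e2 : (208 / 1000 : ℝ) * l * (99 / 100 * Lam) ≤ cnt f0 l * lam f0 := by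
      apply mul_le_mul hc hl (by linarith) (Nat.cast_nonneg _)
    have e3 : Lam * (41 / 200 * l) ≤ (208 / 1000 : ℝ) * l * (99 / 100 * Lam) := by
      have : 0 ≤ Lam * l := by positivity
      nlinarith
    linarith
  have h4 : (Nj j : ℝ) ≤ (pr f0 : ℝ) ^ cnt f0 l := by
    rw [h2]
    exact h1.trans (Real.exp_le_exp.2 h3)
  exact_mod_cast h4

/-- constants are absorbed -/
theorem const_le {l : ℕ} (hl : 2 ^ 64 ≤ l) : (10 : ℝ) ^ 8 ≤ Real.exp (Lam * (l / 200)) := by
  have h1 := Real.add_one_le_exp (Lam * (l / 200))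
  have hL := one_le_Lam
  have h2 : (2 : ℝ) ^ 64 ≤ l := by exact_mod_cast hl
  have h3 : (l : ℝ) / 200 ≤ Lam * (l / 200) := by
    have : (0 : ℝ) ≤ l / 200 := by positivity
    nlinarith
  have h4 : (10 : ℝ) ^ 8 ≤ 2 ^ 64 / 200 := by norm_num
  linarith

/-- the number of candidates -/
theorem card_Y1_le {s : ℕ} (y0 j : ℕ) (hl : 2 ^ 64 ≤ sl s) (hj : 200 * j ≤ 41 * sl s)
    (hv : (sk (s + 1) : ℝ) - sl s ≤ sl s / 1000) :
    ((Y1 s y0 (Nj j)).card : ℝ) ≤ Real.exp (Lam * sl s) := by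
  have h1 : (Y1 s y0 (Nj j)).card ≤ Nj j * (vhi s * (XX s).card) := by
    unfold Y1
    refine (Finset.card_filter_le _ _).trans ?_
    rw [Finset.card_product, Finset.card_product, Nat.card_Ico, Finset.card_range]
    rw [Nat.add_sub_cancel_left]
  have h2 : ((Y1 s y0 (Nj j)).card : ℝ) ≤ Nj j * (vhi s * (XX s).card) := by exact_mod_cast h1
  refine h2.trans ?_
  have hL := one_le_Lam
  have a1 := Nj_le j
  have a2 := vhi_le s
  have a3 := card_XX_exp s
  have a4 := const_le hl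
  have a5 : ∑ f, (cnt f (sl s) : ℝ) * lam f / 2 ≤ Lam * (sl s / 2) := by
    have e2 : ∑ f, (cnt f (sl s) : ℝ) = sl s := by exact_mod_cast cnt_sum' (sl s)
    rw [← e2, Finset.sum_div, Finset.mul_sum]
    refine Finset.sum_le_sum fun f _ => ?_
    have h2 : (0 : ℝ) ≤ cnt f (sl s) := Nat.cast_nonneg _
    nlinarith [lam_le f]
  have a6 : ((XX s).card : ℝ) ≤ Real.exp (Lam * (sl s / 200)) * Real.exp (Lam * (sl s / 2)) := by
    refine a3.trans (mul_le_mul (by linarith) (Real.exp_le_exp.2 a5) (Real.exp_pos _).le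
      (Real.exp_pos _).le)
  have a7 : (vhi s : ℝ) ≤ Real.exp (Lam * (sl s / 1000)) :=
    a2.trans (Real.exp_le_exp.2 (mul_le_mul_of_nonneg_left hv (by linarith)))
  have a8 : (Nj j : ℝ) ≤ Real.exp (Lam * (41 / 200 * sl s)) := by
    refine a1.trans (Real.exp_le_exp.2 (mul_le_mul_of_nonneg_left ?_ (by linarith)))
    have : (200 : ℝ) * j ≤ 41 * sl s := by exact_mod_cast hj
    linarith
  calc (Nj j : ℝ) * (vhi s * (XX s).card)
      ≤ Real.exp (Lam * (41 / 200 * sl s)) * (Real.exp (Lam * (sl s / 1000)) *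
        (Real.exp (Lam * (sl s / 200)) * Real.exp (Lam * (sl s / 2)))) := by
        apply mul_le_mul a8 _ (by positivity) (Real.exp_pos _).le
        exact mul_le_mul a7 a6 (Nat.cast_nonneg _) (Real.exp_pos _).le
    _ = Real.exp (Lam * (41 / 200 * sl s + sl s / 1000 + sl s / 200 + sl s / 2)) := by
        rw [← Real.exp_add, ← Real.exp_add, ← Real.exp_add]
        congr 1
        ring
    _ ≤ Real.exp (Lam * sl s) := by
        apply Real.exp_le_exp.2
        apply mul_le_mul_of_nonneg_left _ (by linarith)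
        have : (0 : ℝ) ≤ sl s := Nat.cast_nonneg _
        linarith

open Classical in
/-- the weight, chain phase -/
theorem weight_chain {s y0 M : ℕ} (hl : 2 ^ 64 ≤ sl s) {K : ℕ}
    (hM : M ≤ pr (fam K) ^ cnt (fam K) (sl s))
    (hv : (sk (s + 1) : ℝ) - sl s ≤ sl s / 1000)
    (hsz : (cnt (fam K) (sl s) : ℝ) / 2
      - 49 / 100 * ((cnt (fam (K + 2)) (sl s) : ℝ) + cnt (fam (K + 1)) (sl s)) ≤ -(sl s / 60 : ℝ))
    (q : H1) :
    (((Y1 s y0 M).filter (Cp s {fam K} q)).card : ℝ) *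
      ∏ f ∈ ({fam (K + 1), fam (K + 2)} : Finset (Fin 3)), ((pr f : ℝ) ^ cnt f (se s))⁻¹
      ≤ Real.exp (-(Lam * (sl s / 100))) := by
  have hL := one_le_Lam
  have h3 : fam (K + 1) ≠ fam (K + 2) := fam_ne_succ (K + 1)
  rw [Finset.prod_pair h3]
  have b1 : (((Y1 s y0 M).filter (Cp s {fam K} q)).card : ℝ) ≤ vhi s * (XX s).card := by
    exact_mod_cast card_Cp_chain hM q
  have b2 : (vhi s : ℝ) ≤ Real.exp (Lam * (sl s / 1000)) :=
    (vhi_le s).trans (Real.exp_le_exp.2 (mul_le_mul_of_nonneg_left hv (by linarith)))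
  have b3 := card_XX_exp s
  have b4 := const_le hl
  have b5 : ((XX s).card : ℝ) ≤ Real.exp (Lam * (sl s / 200)) *
      Real.exp (∑ f, (cnt f (sl s) : ℝ) * lam f / 2) :=
    b3.trans (mul_le_mul_of_nonneg_right (by linarith) (Real.exp_pos _).le)
  have b6 := inv_pow_le s (fam (K + 1))
  have b7 := inv_pow_le s (fam (K + 2))
  have b8 : (((Y1 s y0 M).filter (Cp s {fam K} q)).card : ℝ) ≤
      Real.exp (Lam * (sl s / 1000)) * (Real.exp (Lam * (sl s / 200)) *
      Real.exp (∑ f, (cnt f (sl s) : ℝ) * lam f / 2)) :=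
    b1.trans (mul_le_mul b2 b5 (Nat.cast_nonneg _) (Real.exp_pos _).le)
  have n1 : 0 ≤ ((pr (fam (K + 1)) : ℝ) ^ cnt (fam (K + 1)) (se s))⁻¹ := by positivity
  have n2 : 0 ≤ ((pr (fam (K + 2)) : ℝ) ^ cnt (fam (K + 2)) (se s))⁻¹ := by positivity
  refine (mul_le_mul b8 (mul_le_mul b6 b7 n2 (Real.exp_pos _).le) (mul_nonneg n1 n2)
    (by positivity)).trans ?_
  rw [← Real.exp_add, ← Real.exp_add, ← Real.exp_add, ← Real.exp_add]
  apply Real.exp_le_exp.2
  rw [sum_three K]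
  have c0 : (0 : ℝ) ≤ cnt (fam K) (sl s) := Nat.cast_nonneg _
  have c1 : (0 : ℝ) ≤ cnt (fam (K + 1)) (sl s) := Nat.cast_nonneg _
  have c2 : (0 : ℝ) ≤ cnt (fam (K + 2)) (sl s) := Nat.cast_nonneg _
  have d0 : (cnt (fam K) (sl s) : ℝ) * lam (fam K) ≤ cnt (fam K) (sl s) * Lam :=
    mul_le_mul_of_nonneg_left (lam_le _) c0
  have d1 : (cnt (fam (K + 1)) (sl s) : ℝ) * (99 / 100 * Lam) ≤
      cnt (fam (K + 1)) (sl s) * lam (fam (K + 1)) := mul_le_mul_of_nonneg_left (lam_ge _) c1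
  have d2 : (cnt (fam (K + 2)) (sl s) : ℝ) * (99 / 100 * Lam) ≤
      cnt (fam (K + 2)) (sl s) * lam (fam (K + 2)) := mul_le_mul_of_nonneg_left (lam_ge _) c2
  have d3 := mul_le_mul_of_nonneg_left hsz (show 0 ≤ Lam by linarith)
  have d4 : 0 ≤ Lam * cnt (fam (K + 1)) (sl s) := mul_nonneg (by linarith) c1
  have d5 : 0 ≤ Lam * cnt (fam (K + 2)) (sl s) := mul_nonneg (by linarith) c2
  have d6 : 0 ≤ Lam * (sl s : ℝ) := mul_nonneg (by linarith) (Nat.cast_nonneg _)
  nlinarith [d0, d1, d2, d3, d4, d5, d6]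

open Classical in
/-- the weight, isolation phase -/
theorem weight_iso {s y0 M : ℕ} (hl : 2 ^ 64 ≤ sl s) {K : ℕ}
    (hM : M ≤ pr (fam K) ^ cnt (fam K) (sl s))
    (hv : (sk (s + 1) : ℝ) - sl s ≤ sl s / 1000)
    (hsz : (cnt (fam K) (sl s) : ℝ) / 2
      - 49 / 100 * (cnt (fam (K + 2)) (sl s) : ℝ) ≤ -(sl s / 60 : ℝ))
    (q : H1) :
    (((Y1 s y0 M).filter (Cp s {fam K, fam (K + 1)} q)).card : ℝ) *
      ∏ f ∈ ({fam (K + 2)} : Finset (Fin 3)), ((pr f : ℝ) ^ cnt f (se s))⁻¹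
      ≤ Real.exp (-(Lam * (sl s / 100))) := by
  have hL := one_le_Lam
  rw [Finset.prod_singleton]
  have hcases : ∀ f : Fin 3, f = fam K ∨ f = fam (K + 2) ∨ f = fam (K + 1) := by
    intro f
    have := fam_cases K f
    tauto
  have b1 : (((Y1 s y0 M).filter (Cp s {fam K, fam (K + 1)} q)).card : ℝ) ≤
      (pr (fam (K + 1)) - 1 : ℕ) * (vhi s * ((Xf s (fam K)).card * (Xf s (fam (K + 2))).card)) := by
    exact_mod_cast card_Cp_iso hcases hM q
  have b2 : (vhi s : ℝ) ≤ Real.exp (Lam * (sl s / 1000)) :=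
    (vhi_le s).trans (Real.exp_le_exp.2 (mul_le_mul_of_nonneg_left hv (by linarith)))
  have b3 := card_Xf_exp s (fam K)
  have b3' := card_Xf_exp s (fam (K + 2))
  have b4 := const_le hl
  have b5 : ((pr (fam (K + 1)) - 1 : ℕ) : ℝ) * 4 ≤ Real.exp (Lam * (sl s / 200)) := by
    refine le_trans ?_ b4
    have h1 : ((pr (fam (K + 1)) - 1 : ℕ) : ℝ) ≤ 1000037 := by
      have := (pr_bounds (fam (K + 1))).2
      exact_mod_cast (show pr (fam (K + 1)) - 1 ≤ 1000037 by omega)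
    linarith
  have b7 := inv_pow_le s (fam (K + 2))
  set E0 := Real.exp ((cnt (fam K) (sl s) : ℝ) * lam (fam K) / 2) with hE0
  set E2 := Real.exp ((cnt (fam (K + 2)) (sl s) : ℝ) * lam (fam (K + 2)) / 2) with hE2
  have b8 : (((Y1 s y0 M).filter (Cp s {fam K, fam (K + 1)} q)).card : ℝ) ≤
      Real.exp (Lam * (sl s / 200)) * (Real.exp (Lam * (sl s / 1000)) * (E0 * E2)) := by
    refine b1.trans ?_
    have e1 : ((Xf s (fam K)).card : ℝ) * (Xf s (fam (K + 2))).card ≤ 4 * (E0 * E2) := by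
      calc ((Xf s (fam K)).card : ℝ) * (Xf s (fam (K + 2))).card ≤ (2 * E0) * (2 * E2) :=
            mul_le_mul b3 b3' (Nat.cast_nonneg _) (by positivity)
        _ = 4 * (E0 * E2) := by ring
    calc ((pr (fam (K + 1)) - 1 : ℕ) : ℝ) *
          (vhi s * ((Xf s (fam K)).card * (Xf s (fam (K + 2))).card))
        ≤ ((pr (fam (K + 1)) - 1 : ℕ) : ℝ) * (Real.exp (Lam * (sl s / 1000)) *
            (4 * (E0 * E2))) := by
          apply mul_le_mul_of_nonneg_left _ (Nat.cast_nonneg _)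
          exact mul_le_mul b2 e1 (by positivity) (Real.exp_pos _).le
      _ = (((pr (fam (K + 1)) - 1 : ℕ) : ℝ) * 4) * (Real.exp (Lam * (sl s / 1000)) *
            (E0 * E2)) := by ring
      _ ≤ _ := by
          apply mul_le_mul_of_nonneg_right b5 (by positivity)
  have n2 : 0 ≤ ((pr (fam (K + 2)) : ℝ) ^ cnt (fam (K + 2)) (se s))⁻¹ := by positivity
  refine (mul_le_mul b8 b7 n2 (by positivity)).trans ?_
  rw [hE0, hE2, ← Real.exp_add, ← Real.exp_add, ← Real.exp_add, ← Real.exp_add]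
  apply Real.exp_le_exp.2
  have c0 : (0 : ℝ) ≤ cnt (fam K) (sl s) := Nat.cast_nonneg _
  have c2 : (0 : ℝ) ≤ cnt (fam (K + 2)) (sl s) := Nat.cast_nonneg _
  have d0 : (cnt (fam K) (sl s) : ℝ) * lam (fam K) ≤ cnt (fam K) (sl s) * Lam :=
    mul_le_mul_of_nonneg_left (lam_le _) c0
  have d2 : (cnt (fam (K + 2)) (sl s) : ℝ) * (99 / 100 * Lam) ≤
      cnt (fam (K + 2)) (sl s) * lam (fam (K + 2)) := mul_le_mul_of_nonneg_left (lam_ge _) c2
  have d3 := mul_le_mul_of_nonneg_left hsz (show 0 ≤ Lam by linarith)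
  have d5 : 0 ≤ Lam * cnt (fam (K + 2)) (sl s) := mul_nonneg (by linarith) c2
  have d6 : 0 ≤ Lam * (sl s : ℝ) := mul_nonneg (by linarith) (Nat.cast_nonneg _)
  nlinarith [d0, d2, d3, d5, d6]

/-- THE ONE-SIDED COUNT -/
theorem one_sided : ∃ s0 : ℕ, ∀ s ≥ s0, ∀ j : ℕ, 200 * j ≤ 41 * sl s →
    ∀ K : Finset Key, keysOf s ⊆ K →
      PrLe K (fun w => ∃ y, (300 : ℝ) <
        (((AA s w).filter (fun a => y ≤ a ∧ a < y + Nj j)).card : ℝ))
        (Real.exp (-(Real.sqrt (sl s)))) := by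
  classical
  obtain ⟨y1, hy1⟩ := rank_sizes
  obtain ⟨s1, hs1⟩ := Pool.Agent.Helper36.T4.state_close (1 / 1000) (by norm_num)
  refine ⟨max (2 * y1) s1, fun s hs j hj K hK => ?_⟩
  have hs2 : s1 ≤ s := (le_max_right _ _).trans hs
  have hs3 : 2 * y1 ≤ s := (le_max_left _ _).trans hs
  have hly : y1 ≤ sl s := by
    have := Pool.Agent.Helper36.T4.sl_ge_half s
    omega
  obtain ⟨hb0, hr1, hr2, hr3⟩ := hy1 (sl s) hly
  obtain ⟨_, _, _, hcl⟩ := hs1 s hs2
  have hl : 2 ^ 64 ≤ sl s := hb0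
  have hv : (sk (s + 1) : ℝ) - sl s ≤ sl s / 1000 := by linarith
  set KK := ordK (sl s) with hKK
  have hM : Nj j ≤ pr (fam KK) ^ cnt (fam KK) (sl s) := short_le hj hr1
  have hL := one_le_Lam
  have hpre0 : pre (sl s) (fam KK) = ∅ := pre_head (sl s)
  -- one interval
  have hone : ∀ y0, PrLe K (fun w => ∃ T ⊆ Y1 s y0 (Nj j), T.card = 300 + 1 ∧
      (∀ q ∈ T, isH s w q) ∧ Set.InjOn (fun q : H1 => q.2.2 (fam KK)) (T : Set H1))
      (Real.exp (-(2 * (Lam * sl s)))) := by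
    intro y0
    have hY : ∀ q ∈ Y1 s y0 (Nj j), q.2.2 ∈ XX s := fun q hq => (mem_Y1.1 hq).2.2.1
    have hfin : ((Y1 s y0 (Nj j)).card : ℝ) * (Real.exp (-(Lam * (sl s / 100)))) ^ 300
        ≤ Real.exp (-(2 * (Lam * sl s))) := by
      have h1 := card_Y1_le (s := s) y0 j hl hj hv
      calc ((Y1 s y0 (Nj j)).card : ℝ) * (Real.exp (-(Lam * (sl s / 100)))) ^ 300
          ≤ Real.exp (Lam * sl s) * (Real.exp (-(Lam * (sl s / 100)))) ^ 300 :=
            mul_le_mul_of_nonneg_right h1 (by positivity)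
        _ = Real.exp (-(2 * (Lam * sl s))) := by
            rw [← Real.exp_nat_mul, ← Real.exp_add]
            congr 1
            push_cast
            ring
    by_cases hi : iso (sl s)
    · refine PrLe_mono (fun _ _ h => h) hfin (prob1 K hK (fam KK) {fam KK, fam (KK + 1)}
        {fam (KK + 2)} ?_ ?_ _ hY _ ?_ 300)
      · intro f hf
        rw [Finset.mem_insert, Finset.mem_singleton] at hf
        rcases hf with rfl | rfl
        · exact hpre0
        · exact pre_third_iso hi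
      · intro f hf
        rw [Finset.mem_singleton] at hf
        subst hf
        rw [hKK, pre_second]
        exact Finset.mem_singleton_self _
      · intro q _
        exact weight_iso hl hM hv (hr3 hi) q
    · refine PrLe_mono (fun _ _ h => h) hfin (prob1 K hK (fam KK) {fam KK}
        {fam (KK + 1), fam (KK + 2)} ?_ ?_ _ hY _ ?_ 300)
      · intro f hf
        rw [Finset.mem_singleton] at hf
        subst hf
        exact hpre0
      · intro f hf
        rw [Finset.mem_insert, Finset.mem_singleton] at hf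
        rcases hf with rfl | rfl
        · rw [hKK, pre_third hi]
          simp
        · rw [hKK, pre_second]
          exact Finset.mem_singleton_self _
      · intro q _
        exact weight_chain hl hM hv (hr2 hi) q
  -- all intervals
  have hall := PrLe_exists (Finset.range (Nj (sk (s + 1)))) (fun y0 _ => hone y0)
  refine PrLe_mono ?_ ?_ hall
  · rintro r _ ⟨y, hy⟩
    have hy' : 300 < ((AA s (ext K r)).filter (fun a => y ≤ a ∧ a < y + Nj j)).card := by
      exact_mod_cast hy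
    obtain ⟨h1, h2⟩ := hits_of_card hpre0 hM hy'
    exact ⟨y, Finset.mem_range.2 h1, h2⟩
  · rw [Finset.sum_const, Finset.card_range, nsmul_eq_mul]
    have h1 := Nj_le (sk (s + 1))
    calc (Nj (sk (s + 1)) : ℝ) * Real.exp (-(2 * (Lam * sl s)))
        ≤ Real.exp (Lam * sk (s + 1)) * Real.exp (-(2 * (Lam * sl s))) :=
          mul_le_mul_of_nonneg_right h1 (Real.exp_pos _).le
      _ = Real.exp (Lam * (sk (s + 1) - 2 * sl s)) := by
          rw [← Real.exp_add]
          congr 1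
          ring
      _ ≤ Real.exp (-(Real.sqrt (sl s))) := by
          apply Real.exp_le_exp.2
          have hl2 : (2 : ℝ) ^ 64 ≤ sl s := by exact_mod_cast hl
          have h3 : (sk (s + 1) : ℝ) - 2 * sl s ≤ -(sl s / 2) := by linarith
          have h4 : Lam * ((sk (s + 1) : ℝ) - 2 * sl s) ≤ 1 * (-(sl s / 2)) := by
            nlinarith
          have h5 : Real.sqrt (sl s) ≤ sl s / 2 := by
            rw [Real.sqrt_le_left (by positivity)]
            nlinarith
          linarith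

/-- in the form of block F, with `θ + η ≤ 205 / 1000` -/
theorem one_sided_block {θ η : ℝ} (h : θ + η ≤ 205 / 1000) :
    ∃ (C : ℝ) (s0 : ℕ), ∀ s ≥ s0, ∀ j : ℕ, (j : ℝ) ≤ (θ + η) * sl s →
      ∀ K : Finset Key, keysOf s ⊆ K →
        PrLe K (fun w => ∃ y, C < (((AA s w).filter (fun a => y ≤ a ∧ a < y + Nj j)).card : ℝ))
          (Real.exp (-(Real.sqrt (sl s)))) := by
  obtain ⟨s0, h0⟩ := one_sided
  refine ⟨300, s0, fun s hs j hj K hK => h0 s hs j ?_ K hK⟩
  have h1 : (j : ℝ) ≤ 205 / 1000 * sl s :=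
    hj.trans (mul_le_mul_of_nonneg_right h (Nat.cast_nonneg _))
  have h2 : (200 : ℝ) * j ≤ 41 * sl s := by linarith
  exact_mod_cast h2

end Pool.Agent.Helper53.TF
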