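import Pool.Agent.Helper53.TF.Cond
import Pool.Agent.Helper25.T4.Keys

/-!
# T4' (MP_12a1af), one-sided count: probability of many elements in a short interval
-/

namespace Pool.Agent.Helper53.TF

open Pool.Agent.Helper5.ET Pool.Agent.Helper27.T4
open Pool.Agent.Helper25.T4 (vl key_eq hkey hkey_mem Mk_hkey)

/-- `(a, v, x)` -/
abbrev H1 : Type := ℕ × ℕ × (Fin 3 → ℕ)

/-- the code of `a` -/
def c1 (s : ℕ) (q : H1) : ℕ := q.1 - Nj (sl s) * q.2.1

/-- a hit -/
def isH (s : ℕ) (w : Key → ℕ) (q : H1) : Prop := q.1 = el s w q.2.2 q.2.1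

theorem code_c1 {s : ℕ} {w : Key → ℕ} {q : H1} (h : isH s w q) : code s w q.2.2 = c1 s q := by
  unfold isH el at h
  unfold c1
  omega

/-- compatible hits: the values of the keys of the unhashed families agree -/
def Cp (s : ℕ) (N : Finset (Fin 3)) (q r : H1) : Prop :=
  ∀ f ∈ N, vl s f (c1 s q) (q.2.2 f) = vl s f (c1 s r) (r.2.2 f)

theorem hkey_inj {s : ℕ} {f g : Fin 3} {x y : Fin 3 → ℕ} (h : hkey s f x = hkey s g y) : f = g := by
  unfold hkey at h
  exact Fin.ext (Prod.mk.inj (Prod.mk.inj h).2).1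

theorem hkey_of_empty {s : ℕ} {f : Fin 3} (hf : pre (sl s) f = ∅) (x y : Fin 3 → ℕ) :
    hkey s f x = hkey s f y := by
  unfold hkey
  rw [hf]
  congr 2

theorem hkey_ne_of {s : ℕ} {f g : Fin 3} (hg : g ∈ pre (sl s) f) {x y : Fin 3 → ℕ}
    (h : x g ≠ y g) : hkey s f x ≠ hkey s f y := by
  intro he
  unfold hkey at he
  have h1 : mask (pre (sl s) f) x = mask (pre (sl s) f) y := (Prod.mk.inj (Prod.mk.inj he).2).2
  have h2 := congrFun h1 g
  unfold mask at h2
  rw [if_pos hg, if_pos hg] at h2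
  exact h h2

theorem card_filter_le_of {α : Type*} (S : Finset α) (P P' : α → Prop)
    (iP : DecidablePred P) (iP' : DecidablePred P') (h : ∀ a ∈ S, P a → P' a) :
    (@Finset.filter _ P iP S).card ≤ (@Finset.filter _ P' iP' S).card := by
  apply Finset.card_le_card
  intro a ha
  simp only [Finset.mem_filter] at ha ⊢
  exact ⟨ha.1, h a ha.1 ha.2⟩

open Classical in
/-- the probability of `m + 1` hits with distinct coordinates `g` -/
theorem prob1 {s : ℕ} (K : Finset Key) (hK : keysOf s ⊆ K) (g : Fin 3) (N F : Finset (Fin 3))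
    (hN : ∀ f ∈ N, pre (sl s) f = ∅) (hF : ∀ f ∈ F, g ∈ pre (sl s) f) (Y : Finset H1)
    (hY : ∀ q ∈ Y, q.2.2 ∈ XX s) (Q : ℝ)
    (hQ : ∀ q ∈ Y, ((Y.filter (Cp s N q)).card : ℝ) *
      ∏ f ∈ F, ((pr f : ℝ) ^ cnt f (se s))⁻¹ ≤ Q) (m : ℕ) :
    PrLe K (fun w => ∃ T ⊆ Y, T.card = m + 1 ∧ (∀ q ∈ T, isH s w q) ∧
      Set.InjOn (fun q : H1 => q.2.2 g) (T : Set H1)) (Y.card * Q ^ m) := by
  have hmain := Pool.Agent.Helper29.T4.tuple_bound_w (fun k : K => Mk k.1)
    (fun k => Mk_pos k.1) Y (fun y r => isH s (ext K r) y)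
    (fun y => (F.image (fun f => hkey s f y.2.2)).subtype (fun k => k ∈ K))
    (fun y k => if h : k.1.2.1 < 3 then vl s ⟨k.1.2.1, h⟩ (c1 s y) (y.2.2 ⟨k.1.2.1, h⟩) else 0)
    ?_ (Cp s N) Q ?_ m
  · unfold PrLe OmK
    rw [mul_comm]
    refine le_trans ?_ hmain
    apply Nat.cast_le.mpr
    refine card_filter_le_of _ _ _ _ _ ?_
    rintro r hrO ⟨T, hTY, hTc, hhit, hinj⟩
    have hrO' : r ∈ OmK K := hrO
    refine ⟨T, hTY, hTc, hhit, ?_, ?_⟩
    · intro y hy z hz f hf
      have h1 := key_eq (w := ext K r) (s := s) (x := y.2.2) f (ext_lt hrO' _)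
      have h2 := key_eq (w := ext K r) (s := s) (x := z.2.2) f (ext_lt hrO' _)
      rw [code_c1 (hhit y hy)] at h1
      rw [code_c1 (hhit z hz)] at h2
      rw [← h1, ← h2, hkey_of_empty (hN f hf) y.2.2 z.2.2]
    · intro y hy z hz hyz
      rw [Finset.disjoint_left]
      intro k hk hk'
      rw [Finset.mem_subtype, Finset.mem_image] at hk hk'
      obtain ⟨f, hf, he⟩ := hk
      obtain ⟨f', hf', he'⟩ := hk'
      have hff : f' = f := hkey_inj (he'.trans he.symm)
      subst hff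
      refine hkey_ne_of (hF f' hf) ?_ (he.trans he'.symm)
      intro h
      exact hyz (hinj (Finset.mem_coe.2 hy) (Finset.mem_coe.2 hz) h)
  · intro y hy r hr hhit k hk
    rw [Finset.mem_subtype, Finset.mem_image] at hk
    have hrO' : r ∈ OmK K := hr
    obtain ⟨f, hf, he⟩ := hk
    have hext : ext K r k.1 = r k := ext_mem r k.2
    have h1 := key_eq (w := ext K r) (s := s) (x := y.2.2) f (ext_lt hrO' _)
    rw [he, hext, code_c1 hhit] at h1
    have hf1 : k.1.2.1 = f.val := by rw [← he]; rfl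
    have hlt : k.1.2.1 < 3 := by rw [hf1]; exact f.isLt
    have hff : (⟨k.1.2.1, hlt⟩ : Fin 3) = f := Fin.ext hf1
    show r k = dite _ _ _
    rw [dif_pos hlt, hff]
    exact h1
  · intro y hy
    refine le_trans (le_of_eq ?_) (hQ y hy)
    rw [← nsmul_eq_mul, ← Finset.sum_const]
    apply Finset.sum_congr rfl
    intro z hz
    have hzY := (Finset.mem_filter.mp hz).1
    rw [Finset.prod_subtype_eq_prod_filter (p := fun k => k ∈ K)
      (f := fun k : Key => ((Mk k : ℝ))⁻¹)]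
    rw [Finset.filter_true_of_mem, Finset.prod_image]
    · refine Finset.prod_congr rfl (fun f _ => ?_)
      rw [Mk_hkey]
      push_cast
      rfl
    · intro f _ f' _ h
      exact hkey_inj h
    · intro k hk
      rw [Finset.mem_image] at hk
      obtain ⟨f, _, rfl⟩ := hk
      exact hK (hkey_mem (hY z hzY) f)

end Pool.Agent.Helper53.TF
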