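import Pool.Agent.Helper53.TF.One
import Pool.Agent.Helper27.T4.Ind2
import Pool.Agent.Helper27.T4.Phase

/-!
# T4' (MP_12a1af), one-sided count: the candidates and their number
-/

namespace Pool.Agent.Helper53.TF

open Pool.Agent.Helper5.ET Pool.Agent.Helper27.T4
open Pool.Agent.Helper25.T4 (vl key_eq hkey hkey_mem Mk_hkey XX_lt XX_coprime pow_le_Nj Nj_pos)

/-- the candidates in the interval `[y0, y0 + M)` -/
def Y1 (s y0 M : ℕ) : Finset H1 :=
  ((Finset.Ico y0 (y0 + M)) ×ˢ (Finset.range (vhi s)) ×ˢ (XX s)).filter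
    (fun q => Nj (sl s) * q.2.1 ≤ q.1)

theorem mem_Y1 {s y0 M : ℕ} {q : H1} : q ∈ Y1 s y0 M ↔ (y0 ≤ q.1 ∧ q.1 < y0 + M) ∧
    q.2.1 < vhi s ∧ q.2.2 ∈ XX s ∧ Nj (sl s) * q.2.1 ≤ q.1 := by
  unfold Y1
  rw [Finset.mem_filter, Finset.mem_product, Finset.mem_product, Finset.mem_Ico, Finset.mem_range]
  tauto

/-- two numbers of a short interval in the same class are equal -/
theorem eq_of_modEq {a b y M m : ℕ} (ha : y ≤ a ∧ a < y + M) (hb : y ≤ b ∧ b < y + M) (hM : M ≤ m)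
    (h : a ≡ b [MOD m]) : a = b := by
  rcases Nat.le_total a b with hab | hab
  · have h1 : m ∣ b - a := (Nat.modEq_iff_dvd' hab).1 h
    rcases Nat.eq_zero_or_pos (b - a) with h2 | h2
    · omega
    · have := Nat.le_of_dvd h2 h1
      omega
  · have h1 : m ∣ a - b := (Nat.modEq_iff_dvd' hab).1 h.symm
    rcases Nat.eq_zero_or_pos (a - b) with h2 | h2
    · omega
    · have := Nat.le_of_dvd h2 h1
      omega

theorem sl_le_se' (s : ℕ) : sl s ≤ se s := Pool.Agent.Helper25.T4.sl_le_se s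

theorem cnt_sl_le_se (f : Fin 3) (s : ℕ) : cnt f (sl s) ≤ cnt f (se s) :=
  Pool.Agent.Helper25.T4.cnt_mono f (sl_le_se' s)

theorem pow_dvd_Nj (f : Fin 3) (y : ℕ) : pr f ^ cnt f y ∣ Nj y := pow_dvd_NN pr (av y) f

/-- equality of the key values gives a congruence of the codes -/
theorem vl_eq_iff {s : ℕ} {f : Fin 3} {c c' y y' : ℕ} (h : vl s f c y = vl s f c' y') :
    (c : ZMod (pr f ^ cnt f (se s))) - Lg (pr f) (cnt f (se s)) y =
      (c' : ZMod (pr f ^ cnt f (se s))) - Lg (pr f) (cnt f (se s)) y' := by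
  have hne : NeZero (pr f ^ cnt f (se s)) := ⟨(pow_pos (pr_prime f).pos _).ne'⟩
  unfold vl at h
  exact ZMod.val_injective _ h

/-- same `v`-part, same `x f`, same key value: the elements are congruent -/
theorem c1_congr {s : ℕ} {f : Fin 3} {q r : H1} (hq : Nj (sl s) * q.2.1 ≤ q.1)
    (hr : Nj (sl s) * r.2.1 ≤ r.1) (hx : q.2.2 f = r.2.2 f)
    (h : vl s f (c1 s q) (q.2.2 f) = vl s f (c1 s r) (r.2.2 f)) :
    q.1 ≡ r.1 [MOD pr f ^ cnt f (sl s)] := by
  have h1 := vl_eq_iff h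
  rw [hx] at h1
  have h2 : ((c1 s q : ℕ) : ZMod (pr f ^ cnt f (se s))) = c1 s r := sub_left_injective h1
  rw [ZMod.natCast_eq_natCast_iff] at h2
  have h3 : c1 s q ≡ c1 s r [MOD pr f ^ cnt f (sl s)] :=
    h2.of_dvd (pow_dvd_pow _ (cnt_sl_le_se f s))
  have hd : pr f ^ cnt f (sl s) ∣ Nj (sl s) := pow_dvd_Nj f (sl s)
  have e : ∀ t : H1, Nj (sl s) * t.2.1 ≤ t.1 → t.1 ≡ c1 s t [MOD pr f ^ cnt f (sl s)] := by
    intro t ht
    have h4 : c1 s t + Nj (sl s) * t.2.1 = t.1 := by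
      unfold c1
      omega
    have h5 : Nj (sl s) * t.2.1 ≡ 0 [MOD pr f ^ cnt f (sl s)] :=
      (Nat.modEq_zero_iff_dvd).2 (hd.mul_right _)
    have h6 := h5.add_left (c1 s t)
    rw [h4] at h6
    simpa using h6
  exact (e q hq).trans (h3.trans (e r hr).symm)

/-- components of the admissible triples -/
def Xf (s : ℕ) (f : Fin 3) : Finset ℕ := (Finset.range (pr f ^ cnt f (sl s))).filter
    (fun y => y.Prime ∧ y.Coprime (pr f) ∧ y ^ 2 < pr f ^ cnt f (sl s))

theorem mem_XX_iff {s : ℕ} {x : Fin 3 → ℕ} : x ∈ XX s ↔ ∀ f, x f ∈ Xf s f := by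
  unfold XX Xf
  rw [Fintype.mem_piFinset]

theorem card_XX (s : ℕ) : (XX s).card = ∏ f, (Xf s f).card := by
  unfold XX Xf
  rw [Fintype.card_piFinset]

theorem card_Xf_le (s : ℕ) (f : Fin 3) : (Xf s f).card ≤ Nat.sqrt (pr f ^ cnt f (sl s)) + 1 := by
  have : Xf s f ⊆ Finset.range (Nat.sqrt (pr f ^ cnt f (sl s)) + 1) := by
    intro y hy
    unfold Xf at hy
    rw [Finset.mem_filter] at hy
    rw [Finset.mem_range, Nat.lt_succ_iff, Nat.le_sqrt']
    exact hy.2.2.2.le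
  refine (Finset.card_le_card this).trans ?_
  rw [Finset.card_range]

open Classical in
/-- not isolated: the compatible candidates are determined by `(v, x)` -/
theorem card_Cp_chain {s y0 M : ℕ} {f0 : Fin 3} (hM : M ≤ pr f0 ^ cnt f0 (sl s)) (q : H1) :
    ((Y1 s y0 M).filter (Cp s {f0} q)).card ≤ vhi s * (XX s).card := by
  rw [← Finset.card_range (vhi s), ← Finset.card_product]
  refine Finset.card_le_card_of_injOn (fun r => (r.2.1, r.2.2)) ?_ ?_
  · intro r hr
    have hr' := (Finset.mem_filter.1 (Finset.mem_coe.1 hr)).1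
    rw [mem_Y1] at hr'
    show (r.2.1, r.2.2) ∈ ((Finset.range (vhi s) ×ˢ XX s : Finset _) : Set _)
    rw [Finset.mem_coe, Finset.mem_product, Finset.mem_range]
    exact ⟨hr'.2.1, hr'.2.2.1⟩
  · intro r hr t ht hrt
    have hr' := Finset.mem_filter.1 (Finset.mem_coe.1 hr)
    have ht' := Finset.mem_filter.1 (Finset.mem_coe.1 ht)
    have hr1 := mem_Y1.1 hr'.1
    have ht1 := mem_Y1.1 ht'.1
    have hv : r.2 = t.2 := by
      have := Prod.mk.inj hrt
      exact Prod.ext this.1 this.2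
    have hx : r.2.2 f0 = t.2.2 f0 := by rw [hv]
    have h1 := c1_congr (f := f0) hr1.2.2.2 ht1.2.2.2 hx
      ((hr'.2 f0 (Finset.mem_singleton_self _)).symm.trans (ht'.2 f0 (Finset.mem_singleton_self _)))
    exact Prod.ext (eq_of_modEq hr1.1 ht1.1 hM h1) hv

open Classical in
/-- isolated: the compatible candidates are determined by `(v, x f0, x f1)` up to `p` choices -/
theorem card_Cp_iso {s y0 M : ℕ} {f0 f1 f2 : Fin 3} (hf : ∀ f : Fin 3, f = f0 ∨ f = f1 ∨ f = f2)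
    (hM : M ≤ pr f0 ^ cnt f0 (sl s)) (q : H1) :
    ((Y1 s y0 M).filter (Cp s {f0, f2} q)).card
      ≤ (pr f2 - 1) * (vhi s * ((Xf s f0).card * (Xf s f1).card)) := by
  have hT : (vhi s * ((Xf s f0).card * (Xf s f1).card))
      = (Finset.range (vhi s) ×ˢ (Xf s f0 ×ˢ Xf s f1)).card := by
    rw [Finset.card_product, Finset.card_product, Finset.card_range]
  rw [hT]
  refine Finset.card_le_mul_card_image_of_maps_to (f := fun r : H1 => (r.2.1, r.2.2 f0, r.2.2 f1))
    ?_ _ ?_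
  · intro r hr
    have hr1 := mem_Y1.1 (Finset.mem_filter.1 hr).1
    have hx := mem_XX_iff.1 hr1.2.2.1
    rw [Finset.mem_product, Finset.mem_product, Finset.mem_range]
    exact ⟨hr1.2.1, hx f0, hx f1⟩
  · intro b _
    rcases ((Y1 s y0 M).filter (Cp s {f0, f2} q)).filter
      (fun r : H1 => (r.2.1, r.2.2 f0, r.2.2 f1) = b) |>.eq_empty_or_nonempty with he | ⟨r0, hr0⟩
    · rw [he]
      simp
    · have hr0' := Finset.mem_filter.1 hr0
      have hr0c := Finset.mem_filter.1 hr0'.1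
      have hr01 := mem_Y1.1 hr0c.1
      refine le_trans (Finset.card_le_card_of_injOn (fun r : H1 => r.2.2 f2) ?_ ?_)
        (card_Lg_le (pr_prime f2) (pr_ne_two f2) (cnt f2 (se s))
          (Lg (pr f2) (cnt f2 (se s)) (r0.2.2 f2)))
      · intro r hr
        have hr' := Finset.mem_filter.1 (Finset.mem_coe.1 hr)
        have hrc := Finset.mem_filter.1 hr'.1
        have hr1 := mem_Y1.1 hrc.1
        have hb : (r.2.1, r.2.2 f0, r.2.2 f1) = (r0.2.1, r0.2.2 f0, r0.2.2 f1) :=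
          hr'.2.trans hr0'.2.symm
        have hb1 := Prod.mk.inj hb
        have hb2 := Prod.mk.inj hb1.2
        have hv0 := ((hrc.2 f0 (by simp)).symm.trans (hr0c.2 f0 (by simp)))
        have hv2 := ((hrc.2 f2 (by simp)).symm.trans (hr0c.2 f2 (by simp)))
        have ha : r.1 = r0.1 := eq_of_modEq hr1.1 hr01.1 hM
          (c1_congr (f := f0) hr1.2.2.2 hr01.2.2.2 hb2.1 hv0)
        have hc : c1 s r = c1 s r0 := by
          unfold c1
          rw [ha, hb1.1]
        have hv2' := vl_eq_iff hv2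
        rw [hc] at hv2'
        have hL : Lg (pr f2) (cnt f2 (se s)) (r.2.2 f2) = Lg (pr f2) (cnt f2 (se s)) (r0.2.2 f2) :=
          sub_right_injective hv2'
        show r.2.2 f2 ∈ ((Finset.range (pr f2 ^ (cnt f2 (se s) + 1))).filter
          (fun m => m.Coprime (pr f2) ∧ Lg (pr f2) (cnt f2 (se s)) m =
            Lg (pr f2) (cnt f2 (se s)) (r0.2.2 f2)) : Set ℕ)
        rw [Finset.mem_coe, Finset.mem_filter, Finset.mem_range]
        refine ⟨lt_of_lt_of_le (XX_lt hr1.2.2.1 f2) (Nat.pow_le_pow_right (pr_prime f2).pos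
          (le_trans (cnt_sl_le_se f2 s) (Nat.le_succ _))), XX_coprime hr1.2.2.1 f2, hL⟩
      · intro r hr t ht hrt
        have hr' := Finset.mem_filter.1 (Finset.mem_coe.1 hr)
        have ht' := Finset.mem_filter.1 (Finset.mem_coe.1 ht)
        have hrc := Finset.mem_filter.1 hr'.1
        have htc := Finset.mem_filter.1 ht'.1
        have hr1 := mem_Y1.1 hrc.1
        have ht1 := mem_Y1.1 htc.1
        have hb : (r.2.1, r.2.2 f0, r.2.2 f1) = (t.2.1, t.2.2 f0, t.2.2 f1) :=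
          hr'.2.trans ht'.2.symm
        have hb1 := Prod.mk.inj hb
        have hb2 := Prod.mk.inj hb1.2
        have hv0 := ((hrc.2 f0 (by simp)).symm.trans (htc.2 f0 (by simp)))
        have ha : r.1 = t.1 := eq_of_modEq hr1.1 ht1.1 hM
          (c1_congr (f := f0) hr1.2.2.2 ht1.2.2.2 hb2.1 hv0)
        have hrt' : r.2.2 f2 = t.2.2 f2 := hrt
        have hx : r.2.2 = t.2.2 := by
          funext f
          rcases hf f with rfl | rfl | rfl
          · exact hb2.1
          · exact hb2.2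
          · exact hrt'
        exact Prod.ext ha (Prod.ext hb1.1 hx)

/-! ## from many elements to many hits with distinct heads -/

theorem el_lt1 {s : ℕ} {w : Key → ℕ} {x : Fin 3 → ℕ} {v : ℕ} (hv : v < vhi s) :
    el s w x v < Nj (sk (s + 1)) := by
  have h1 : code s w x < Nj (se s) := cv_lt pr_prime pr_inj (av (se s)) (cmp s w x)
  have h2 : Nj (sl s) * vhi s ≤ Nj (sk (s + 1)) - Nj (se s) := Nat.mul_div_le _ _
  have h3 : Nj (sl s) * (v + 1) ≤ Nj (sl s) * vhi s := Nat.mul_le_mul_left _ hv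
  have h4 := Nj_pos (sl s)
  rw [Nat.mul_add, Nat.mul_one] at h3
  unfold el
  omega

/-- the class of an element modulo the part of the head is determined by the head -/
theorem el_congr_head {s : ℕ} {w : Key → ℕ} {f0 : Fin 3} (h0 : pre (sl s) f0 = ∅)
    {x x' : Fin 3 → ℕ} (hx : x f0 = x' f0) (v v' : ℕ) :
    el s w x v ≡ el s w x' v' [MOD pr f0 ^ cnt f0 (sl s)] := by
  have hd : pr f0 ^ cnt f0 (sl s) ∣ Nj (sl s) := pow_dvd_Nj f0 (sl s)
  have h1 : ((code s w x : ℕ) : ZMod (pr f0 ^ av (se s) f0)) = cmp s w x f0 :=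
    cv_cast_comp pr_prime pr_inj (av (se s)) (cmp s w x) f0
  have h2 : ((code s w x' : ℕ) : ZMod (pr f0 ^ av (se s) f0)) = cmp s w x' f0 :=
    cv_cast_comp pr_prime pr_inj (av (se s)) (cmp s w x') f0
  have h3 : cmp s w x f0 = cmp s w x' f0 := by
    have : hv s w f0 x = hv s w f0 x' := by
      have := hkey_of_empty h0 x x'
      unfold hkey at this
      unfold hv
      rw [this]
    unfold Pool.Agent.Helper5.ET.cmp
    rw [this, hx]
  have h4 : ((code s w x : ℕ) : ZMod (pr f0 ^ av (se s) f0)) = code s w x' := by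
    rw [h1, h2, h3]
  rw [ZMod.natCast_eq_natCast_iff] at h4
  have h5 : code s w x ≡ code s w x' [MOD pr f0 ^ cnt f0 (sl s)] :=
    h4.of_dvd (pow_dvd_pow _ (cnt_sl_le_se f0 s))
  unfold el
  have e : ∀ v : ℕ, Nj (sl s) * v ≡ 0 [MOD pr f0 ^ cnt f0 (sl s)] := fun v =>
    (Nat.modEq_zero_iff_dvd).2 (hd.mul_right _)
  exact h5.add ((e v).trans (e v').symm)

/-- many elements in a short interval give many hits with distinct heads -/
theorem hits_of_card {s : ℕ} {w : Key → ℕ} {f0 : Fin 3} (h0 : pre (sl s) f0 = ∅) {y0 M m : ℕ}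
    (hM : M ≤ pr f0 ^ cnt f0 (sl s))
    (h : m < ((AA s w).filter (fun a => y0 ≤ a ∧ a < y0 + M)).card) :
    y0 < Nj (sk (s + 1)) ∧ ∃ T ⊆ Y1 s y0 M, T.card = m + 1 ∧ (∀ q ∈ T, isH s w q) ∧
      Set.InjOn (fun q : H1 => q.2.2 f0) (T : Set H1) := by
  classical
  have hex : ∀ a ∈ (AA s w).filter (fun a => y0 ≤ a ∧ a < y0 + M),
      ∃ q : H1, q ∈ Y1 s y0 M ∧ isH s w q ∧ q.1 = a := by
    intro a ha
    rw [Finset.mem_filter] at ha
    obtain ⟨haA, ha2⟩ := ha
    unfold AA at haA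
    rw [Finset.mem_image] at haA
    obtain ⟨⟨x, v⟩, hxv, he⟩ := haA
    rw [Finset.mem_product] at hxv
    have hv : v < vhi s := by
      have := hxv.2
      unfold VV at this
      exact (Finset.mem_Ico.mp (Finset.mem_filter.mp this).1).2
    refine ⟨(a, v, x), ?_, he.symm, rfl⟩
    rw [mem_Y1]
    refine ⟨ha2, hv, hxv.1, ?_⟩
    have h4 : a = code s w x + Nj (sl s) * v := he.symm
    show Nj (sl s) * v ≤ a
    omega
  choose! φ hφ using hex
  obtain ⟨S, hS, hSc⟩ := Finset.exists_subset_card_eq (Nat.succ_le_of_lt h)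
  have hne : S.Nonempty := Finset.card_pos.1 (by omega)
  refine ⟨?_, S.image φ, ?_, ?_, ?_, ?_⟩
  · obtain ⟨a, ha⟩ := hne
    obtain ⟨hq, hh, h1⟩ := hφ a (hS ha)
    have h2 := mem_Y1.1 hq
    have h3 := el_lt1 (w := w) (x := (φ a).2.2) h2.2.1
    have h4 : (φ a).1 = el s w (φ a).2.2 (φ a).2.1 := hh
    omega
  · intro q hq
    rw [Finset.mem_image] at hq
    obtain ⟨a, ha, rfl⟩ := hq
    exact (hφ a (hS ha)).1
  · rw [Finset.card_image_of_injOn, hSc]
    intro a ha b hb hab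
    have h1 := (hφ a (hS ha)).2.2
    have h2 := (hφ b (hS hb)).2.2
    rw [hab, h2] at h1
    exact h1.symm
  · intro q hq
    rw [Finset.mem_image] at hq
    obtain ⟨a, ha, rfl⟩ := hq
    exact (hφ a (hS ha)).2.1
  · intro q hq r hr hqr
    rw [Finset.mem_coe, Finset.mem_image] at hq hr
    obtain ⟨a, ha, rfl⟩ := hq
    obtain ⟨b, hb, rfl⟩ := hr
    obtain ⟨hqa, hha, ha1⟩ := hφ a (hS ha)
    obtain ⟨hqb, hhb, hb1⟩ := hφ b (hS hb)
    have hx : (φ a).2.2 f0 = (φ b).2.2 f0 := hqr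
    have h1 := el_congr_head (w := w) h0 hx (φ a).2.1 (φ b).2.1
    have h2 : (φ a).1 = el s w (φ a).2.2 (φ a).2.1 := hha
    have h3 : (φ b).1 = el s w (φ b).2.2 (φ b).2.1 := hhb
    rw [← h2, ← h3] at h1
    have h4 := eq_of_modEq (mem_Y1.1 hqa).1 (mem_Y1.1 hqb).1 hM h1
    have h5 : a = b := by rw [← ha1, ← hb1, h4]
    rw [h5]

end Pool.Agent.Helper53.TF
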