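import Pool.Agent.Helper97.ET.Cnt
import Pool.Agent.Helper36.T4.Size
import Pool.Agent.Helper27.T4.Phase

/-!
# T4' (MP_12a1af), one-sided count: sizes
-/

namespace Pool.Agent.Helper53.TF

open Pool.Agent.Helper5.ET Pool.Agent.Helper27.T4

/-- for a large position the three ranks have the sizes needed for the one-sided count -/
theorem rank_sizes : ∃ y0 : ℕ, ∀ l ≥ y0, bb 0 ≤ l ∧
    (208 / 1000 : ℝ) * l ≤ cnt (fam (ordK l)) l ∧
    (¬ iso l → (cnt (fam (ordK l)) l : ℝ) / 2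
      - 49 / 100 * ((cnt (fam (ordK l + 2)) l : ℝ) + cnt (fam (ordK l + 1)) l) ≤ -(l / 60 : ℝ)) ∧
    (iso l → (cnt (fam (ordK l)) l : ℝ) / 2 - 49 / 100 * (cnt (fam (ordK l + 2)) l : ℝ)
      ≤ -(l / 60 : ℝ)) := by
  obtain ⟨k1, h1⟩ := Pool.Agent.Helper97.ET.cnt_era (1 / 1000) (by norm_num)
  obtain ⟨k2, h2⟩ := Pool.Agent.Helper97.ET.bb_ratio_lim (1 / 1000) (by norm_num)
  refine ⟨bb (max k1 k2), fun l hl => ?_⟩
  have hl0 : bb 0 ≤ l := le_trans (bb_strictMono.monotone (Nat.zero_le _)) hl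
  obtain ⟨hs1, hs2⟩ := era_spec l hl0
  have hk : max k1 k2 ≤ era l := by
    by_contra hcon
    push Not at hcon
    have h3 : era l + 1 ≤ max k1 k2 := hcon
    have := bb_strictMono.monotone h3
    omega
  have hk1 : k1 ≤ era l := (le_max_left _ _).trans hk
  have hk2 : k2 ≤ era l := (le_max_right _ _).trans hk
  have hc : |(cnt (fam (era l)) l : ℝ) - (4 / 19 * bb (era l) + ((l : ℝ) - bb (era l)))|
        ≤ 1 / 1000 * bb (era l) ∧
      |(cnt (fam (era l + 1)) l : ℝ) - 6 / 19 * bb (era l)| ≤ 1 / 1000 * bb (era l) ∧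
      |(cnt (fam (era l + 2)) l : ℝ) - 9 / 19 * bb (era l)| ≤ 1 / 1000 * bb (era l) :=
    h1 (era l) hk1 l hs1 hs2.le
  obtain ⟨c1, c2, c3⟩ := hc
  obtain ⟨r1, r2⟩ := h2 (era l) hk2
  have hx : (bb (era l) : ℝ) ≤ l := by exact_mod_cast hs1
  have hx2 : (l : ℝ) ≤ bb (era l + 1) := by exact_mod_cast hs2.le
  have hx0 : (0 : ℝ) < bb (era l) := by
    have := bb_ge_pow (era l)
    exact_mod_cast (show 0 < bb (era l) by omega)
  refine ⟨hl0, ?_⟩
  rw [abs_le] at c1 c2 c3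
  have hcast1 : ((l - bb (era l) : ℕ) : ℝ) = (l : ℝ) - bb (era l) := by
    rw [Nat.cast_sub hs1]
  have hcast2 : ((bb (era l + 1) - bb (era l) : ℕ) : ℝ) = (bb (era l + 1) : ℝ) - bb (era l) := by
    rw [Nat.cast_sub (hs1.trans hs2.le)]
  by_cases hpos : 5 * (l - bb (era l)) < 2 * (bb (era l + 1) - bb (era l))
  · have hK : ordK l = era l := by
      unfold ordK
      rw [if_pos hpos]
    have hp : 5 * ((l : ℝ) - bb (era l)) ≤ 2 * ((bb (era l + 1) : ℝ) - bb (era l)) := by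
      rw [← hcast1, ← hcast2]
      exact_mod_cast hpos.le
    rw [hK]
    refine ⟨?_, fun _ => ?_, fun _ => ?_⟩
    · linarith [c1.1]
    · linarith [c1.2, c2.1, c3.1]
    · linarith [c1.2, c3.1]
  · have hK : ordK l = era l + 1 := by
      unfold ordK
      rw [if_neg hpos]
    have hni : ¬ iso l := fun h => hpos h.2
    have e1 : fam (era l + 1 + 2) = fam (era l) := fam_add_three (era l)
    have e2 : fam (era l + 1 + 1) = fam (era l + 2) := rfl
    rw [hK, e1, e2]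
    refine ⟨?_, fun _ => ?_, fun h => absurd h hni⟩
    · linarith [c2.1]
    · linarith [c1.1, c2.2, c3.1]

end Pool.Agent.Helper53.TF
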