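import Pool.Agent.Helper53.TF.OneCount
import Pool.Agent.Helper53.TF.OneSize

/-!
# T4' (MP_12a1af), one-sided count: the second half of block F
-/

namespace Pool.Agent.Helper53.TF

open Pool.Agent.Helper5.ET Pool.Agent.Helper27.T4
open Pool.Agent.Helper25.T4 (XX_lt XX_coprime pow_le_Nj Nj_pos Nj_mono)

/-! ## logarithms -/

/-- the largest logarithm -/
noncomputable def Lam : ℝ := Real.log 1000037

theorem one_le_Lam : 1 ≤ Lam := by
  unfold Lam
  rw [Real.le_log_iff_exp_le (by norm_num)]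
  have := Real.exp_one_lt_d9
  linarith

/-- the logarithm of a prime -/
noncomputable def lam (f : Fin 3) : ℝ := Real.log (pr f)

theorem pr_bounds (f : Fin 3) : 1000003 ≤ pr f ∧ pr f ≤ 1000037 := by
  fin_cases f <;> simp [pr]

theorem pr_posR (f : Fin 3) : (0 : ℝ) < pr f := by exact_mod_cast (pr_prime f).pos

theorem lam_le (f : Fin 3) : lam f ≤ Lam := by
  unfold lam Lam
  apply Real.log_le_log (pr_posR f)
  exact_mod_cast (pr_bounds f).2

theorem lam_ge (f : Fin 3) : 99 / 100 * Lam ≤ lam f := by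
  have h1 : (99 : ℝ) * Real.log 1000037 ≤ 100 * Real.log 1000003 := by
    have e1 : (99 : ℝ) * Real.log 1000037 = Real.log (1000037 ^ 99) := by
      rw [Real.log_pow]; norm_num
    have e2 : (100 : ℝ) * Real.log 1000003 = Real.log (1000003 ^ 100) := by
      rw [Real.log_pow]; norm_num
    rw [e1, e2]
    apply Real.log_le_log (by positivity)
    norm_num
  have h2 : Real.log 1000003 ≤ lam f := by
    unfold lam
    apply Real.log_le_log (by norm_num)
    exact_mod_cast (pr_bounds f).1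
  unfold Lam
  linarith

theorem pow_eq_exp (f : Fin 3) (n : ℕ) : ((pr f : ℝ)) ^ n = Real.exp (n * lam f) := by
  unfold lam
  rw [mul_comm, Real.exp_mul, Real.exp_log (pr_posR f), Real.rpow_natCast]

theorem cnt_sum' (y : ℕ) : ∑ f, cnt f y = y := by
  unfold cnt
  have h := Finset.card_eq_sum_card_fiberwise (s := Finset.range y) (t := Finset.univ)
    (f := own) (fun _ _ => Finset.mem_coe.2 (Finset.mem_univ _))
  rw [Finset.card_range] at h
  exact h.symm

theorem Nj_exp (y : ℕ) : (Nj y : ℝ) = Real.exp (∑ f, (cnt f y : ℝ) * lam f) := by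
  rw [Real.exp_sum]
  unfold Nj NN av
  push_cast
  exact Finset.prod_congr rfl fun f _ => pow_eq_exp f _

theorem Nj_ratio {y z : ℕ} (h : y ≤ z) :
    (Nj z : ℝ) ≤ Nj y * Real.exp (Lam * ((z : ℝ) - y)) := by
  rw [Nj_exp, Nj_exp, ← Real.exp_add]
  apply Real.exp_le_exp.2
  have h1 : ∀ f, (cnt f z : ℝ) * lam f ≤ cnt f y * lam f + Lam * ((cnt f z : ℝ) - cnt f y) := by
    intro f
    have h2 : (cnt f y : ℝ) ≤ cnt f z := by
      exact_mod_cast Pool.Agent.Helper25.T4.cnt_mono f h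
    nlinarith [lam_le f]
  refine (Finset.sum_le_sum fun f _ => h1 f).trans (le_of_eq ?_)
  rw [Finset.sum_add_distrib, ← Finset.mul_sum, Finset.sum_sub_distrib]
  have e1 : ∑ f, (cnt f z : ℝ) = z := by exact_mod_cast cnt_sum' z
  have e2 : ∑ f, (cnt f y : ℝ) = y := by exact_mod_cast cnt_sum' y
  rw [e1, e2]

theorem Nj_le (y : ℕ) : (Nj y : ℝ) ≤ Real.exp (Lam * y) := by
  rw [Nj_exp]
  apply Real.exp_le_exp.2
  have e2 : ∑ f, (cnt f y : ℝ) = y := by exact_mod_cast cnt_sum' y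
  rw [← e2, Finset.mul_sum]
  refine Finset.sum_le_sum fun f _ => ?_
  have h2 : (0 : ℝ) ≤ cnt f y := Nat.cast_nonneg _
  nlinarith [lam_le f]

theorem vhi_le (s : ℕ) : (vhi s : ℝ) ≤ Real.exp (Lam * ((sk (s + 1) : ℝ) - sl s)) := by
  have h1 : Nj (sl s) * vhi s ≤ Nj (sk (s + 1)) :=
    (Nat.mul_div_le _ _).trans (Nat.sub_le _ _)
  have h2 : (Nj (sl s) : ℝ) * vhi s ≤ Nj (sk (s + 1)) := by exact_mod_cast h1
  have h3 := Nj_ratio (Pool.Agent.Helper25.T4.sl_le_sk_succ s)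
  have h4 : (0 : ℝ) < Nj (sl s) := by exact_mod_cast Nj_pos (sl s)
  exact le_of_mul_le_mul_left (h2.trans h3) h4

theorem card_Xf_exp (s : ℕ) (f : Fin 3) :
    ((Xf s f).card : ℝ) ≤ 2 * Real.exp ((cnt f (sl s) : ℝ) * lam f / 2) := by
  have h1 := card_Xf_le s f
  have h2 : (Nat.sqrt (pr f ^ cnt f (sl s)) : ℝ) ≤ Real.sqrt ((pr f : ℝ) ^ cnt f (sl s)) := by
    apply Real.le_sqrt_of_sq_le
    exact_mod_cast Nat.sqrt_le' (pr f ^ cnt f (sl s))
  have h3 : Real.sqrt ((pr f : ℝ) ^ cnt f (sl s)) = Real.exp ((cnt f (sl s) : ℝ) * lam f / 2) := by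
    rw [pow_eq_exp, Real.exp_half]
  have h4 : (1 : ℝ) ≤ Real.exp ((cnt f (sl s) : ℝ) * lam f / 2) := by
    apply Real.one_le_exp
    have : 0 ≤ lam f := by
      have := lam_ge f
      have := one_le_Lam
      linarith
    positivity
  have h5 : ((Xf s f).card : ℝ) ≤ (Nat.sqrt (pr f ^ cnt f (sl s)) : ℝ) + 1 := by
    exact_mod_cast h1
  rw [h3] at h2
  linarith

theorem card_XX_exp (s : ℕ) : ((XX s).card : ℝ) ≤
    8 * Real.exp (∑ f, (cnt f (sl s) : ℝ) * lam f / 2) := by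
  rw [card_XX, Real.exp_sum]
  push_cast
  calc ∏ f, ((Xf s f).card : ℝ) ≤ ∏ f : Fin 3, (2 * Real.exp ((cnt f (sl s) : ℝ) * lam f / 2)) :=
        Finset.prod_le_prod (fun _ _ => Nat.cast_nonneg _) (fun f _ => card_Xf_exp s f)
    _ = 8 * ∏ f, Real.exp ((cnt f (sl s) : ℝ) * lam f / 2) := by
        rw [Finset.prod_mul_distrib, Finset.prod_const]
        norm_num

theorem inv_pow_le (s : ℕ) (f : Fin 3) :
    ((pr f : ℝ) ^ cnt f (se s))⁻¹ ≤ Real.exp (-((cnt f (sl s) : ℝ) * lam f)) := by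
  rw [pow_eq_exp, ← Real.exp_neg]
  apply Real.exp_le_exp.2
  have h1 : (cnt f (sl s) : ℝ) ≤ cnt f (se s) := by exact_mod_cast cnt_sl_le_se f s
  have h2 : 0 ≤ lam f := by
    have := lam_ge f
    have := one_le_Lam
    linarith
  nlinarith

theorem sum_three (K : ℕ) (g : Fin 3 → ℝ) :
    ∑ f, g f = g (fam K) + g (fam (K + 1)) + g (fam (K + 2)) := by
  have h1 : fam K ≠ fam (K + 1) := fam_ne_succ K
  have h2 : fam K ≠ fam (K + 2) := fam_ne_succ2 K
  have h3 : fam (K + 1) ≠ fam (K + 2) := fam_ne_succ (K + 1)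
  rw [univ_fam K, Finset.sum_insert, Finset.sum_insert, Finset.sum_singleton]
  · ring
  · simpa using h3
  · simp [h1, h2]

end Pool.Agent.Helper53.TF
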