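import Mathlib

/-!
# Reveal lemma (T4', MP_12a1af)

Independent uniform values on a finite set of keys; candidate hits `h` which read a finite set
of keys. If, whatever has been revealed by the earlier hits, the expected number of valid hits
which read a new key is at most `B`, then chains of `T` valid hits, each with a new key, have
probability at most `B ^ T`.
-/

namespace Helper53.TF

open Finset

/-- indicator of a proposition -/
noncomputable def ind (p : Prop) : ℝ := @ite ℝ p (Classical.propDecidable p) 1 0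

theorem ind_pos {p : Prop} (h : p) : ind p = 1 := by simp [ind, h]

theorem ind_neg {p : Prop} (h : ¬ p) : ind p = 0 := by simp [ind, h]

theorem ind_nonneg (p : Prop) : 0 ≤ ind p := by
  by_cases h : p
  · rw [ind_pos h]; exact zero_le_one
  · rw [ind_neg h]

theorem ind_le_one (p : Prop) : ind p ≤ 1 := by
  by_cases h : p
  · rw [ind_pos h]
  · rw [ind_neg h]; exact zero_le_one

theorem ind_congr {p q : Prop} (h : p ↔ q) : ind p = ind q := by
  by_cases hp : p
  · rw [ind_pos hp, ind_pos (h.1 hp)]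
  · rw [ind_neg hp, ind_neg (fun hq => hp (h.2 hq))]

theorem ind_and (p q : Prop) : ind (p ∧ q) = ind p * ind q := by
  by_cases hp : p
  · by_cases hq : q
    · rw [ind_pos hp, ind_pos hq, ind_pos ⟨hp, hq⟩, one_mul]
    · rw [ind_neg hq, ind_neg (fun h => hq h.2), mul_zero]
  · rw [ind_neg hp, ind_neg (fun h => hp h.1), zero_mul]

theorem ind_mono {p q : Prop} (h : p → q) : ind p ≤ ind q := by
  by_cases hp : p
  · rw [ind_pos hp, ind_pos (h hp)]
  · rw [ind_neg hp]; exact ind_nonneg q

theorem ind_one_of {p : Prop} (h : ind p ≠ 0) : p := by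
  by_contra hp
  exact h (ind_neg hp)

variable {K : Type*} [Fintype K] {V : K → Type*}

/-- the values of `w` on `P` and of `w'` elsewhere -/
noncomputable def glue (P : Finset K) (w w' : ∀ k, V k) : ∀ k, V k :=
  fun k => @ite (V k) (k ∈ P) (Classical.propDecidable _) (w k) (w' k)

omit [Fintype K] in
theorem glue_of_mem (P : Finset K) (w w' : ∀ k, V k) {k : K} (hk : k ∈ P) :
    glue P w w' k = w k := by simp [glue, hk]

omit [Fintype K] in
theorem glue_of_not_mem (P : Finset K) (w w' : ∀ k, V k) {k : K} (hk : k ∉ P) :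
    glue P w w' k = w' k := by simp [glue, hk]

omit [Fintype K] in
theorem glue_glue (P : Finset K) (w w' : ∀ k, V k) :
    glue P (glue P w w') (glue P w' w) = w := by
  funext k
  by_cases hk : k ∈ P
  · rw [glue_of_mem _ _ _ hk, glue_of_mem _ _ _ hk]
  · rw [glue_of_not_mem _ _ _ hk, glue_of_not_mem _ _ _ hk]

variable [Fintype (∀ k, V k)]

omit [Fintype K] in
theorem sum_glue (P : Finset K) (F : (∀ k, V k) → ℝ) :
    ∑ w : (∀ k, V k), ∑ w' : (∀ k, V k), F (glue P w w')
      = (Fintype.card (∀ k, V k) : ℝ) * ∑ w : (∀ k, V k), F w := by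
  have h1 : ∑ p : (∀ k, V k) × (∀ k, V k), F (glue P p.1 p.2)
      = ∑ p : (∀ k, V k) × (∀ k, V k), F p.1 := by
    refine Finset.sum_nbij' (fun p => (glue P p.1 p.2, glue P p.2 p.1))
      (fun p => (glue P p.1 p.2, glue P p.2 p.1)) ?_ ?_ ?_ ?_ ?_
    · intro p _; simp
    · intro p _; simp
    · intro p _; simp [glue_glue]
    · intro p _; simp [glue_glue]
    · intro p _; simp
  rw [Fintype.sum_prod_type, Fintype.sum_prod_type] at h1
  rw [h1]
  simp [Finset.sum_const, Finset.mul_sum, Finset.card_univ]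

/-- uniform probability of an event -/
noncomputable def pr (S : (∀ k, V k) → Prop) : ℝ :=
  (∑ w : (∀ k, V k), ind (S w)) / (Fintype.card (∀ k, V k) : ℝ)

variable {H : Type*} [Fintype H]

/-- all keys read by a finite sequence of hits -/
noncomputable def used {t : ℕ} (keys : H → Finset K) (f : Fin t → H) : Finset K :=
  @Finset.biUnion _ _ (Classical.decEq K) Finset.univ fun i => keys (f i)

omit [Fintype K] [Fintype H] in
theorem mem_used {t : ℕ} (keys : H → Finset K) (f : Fin t → H) (k : K) :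
    k ∈ used keys f ↔ ∃ i, k ∈ keys (f i) := by
  classical
  unfold used
  rw [Finset.mem_biUnion]
  simp

omit [Fintype K] [Fintype H] in
theorem keys_subset_used (keys : H → Finset K) {t : ℕ} (f : Fin t → H) (i : Fin t) :
    keys (f i) ⊆ used keys f := fun k hk => (mem_used keys f k).2 ⟨i, hk⟩

/-- every hit of the sequence (newest first) reads a key which the older ones do not read -/
def fresh (keys : H → Finset K) : (t : ℕ) → (Fin t → H) → Prop
  | 0, _ => True
  | t + 1, f => (¬ keys (f 0) ⊆ used keys (Fin.tail f)) ∧ fresh keys t (Fin.tail f)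

omit [Fintype K] [Fintype H] in
theorem fresh_cons (keys : H → Finset K) {t : ℕ} (h : H) (f : Fin t → H) :
    fresh keys (t + 1) (Fin.cons h f : Fin (t + 1) → H) ↔
      (¬ keys h ⊆ used keys f) ∧ fresh keys t f := by
  simp [fresh, Fin.tail_cons]

omit [Fintype K] [Fintype H] in
theorem forall_cons {V' : Type*} (E : H → V' → Prop) {t : ℕ} (h : H) (f : Fin t → H) (w : V') :
    (∀ i, E ((Fin.cons h f : Fin (t + 1) → H) i) w) ↔ E h w ∧ ∀ i, E (f i) w := by
  rw [Fin.forall_fin_succ]
  simp only [Fin.cons_zero, Fin.cons_succ]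

omit [Fintype K] in
/-- the main counting bound -/
theorem sum_chains (keys : H → Finset K) (E : H → (∀ k, V k) → Prop)
    (hE : ∀ h w w', (∀ k ∈ keys h, w k = w' k) → (E h w ↔ E h w'))
    (B : ℕ → ℝ) (hB0 : ∀ t, 0 ≤ B t) (T : ℕ)
    (hB : ∀ t, t < T → ∀ f : Fin t → H, ∀ w : (∀ k, V k), fresh keys t f →
      (∀ i, E (f i) w) →
      ∑ h : H, ∑ w' : (∀ k, V k),
        ind (¬ keys h ⊆ used keys f ∧ E h (glue (used keys f) w w'))
        ≤ B t * (Fintype.card (∀ k, V k) : ℝ)) :
    ∑ w : (∀ k, V k), ∑ f : Fin T → H, ind (fresh keys T f ∧ ∀ i, E (f i) w)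
      ≤ (∏ t ∈ Finset.range T, B t) * (Fintype.card (∀ k, V k) : ℝ) := by
  induction T with
  | zero =>
    have : ∀ w : (∀ k, V k), ∑ f : Fin 0 → H, ind (fresh keys 0 f ∧ ∀ i, E (f i) w) ≤ 1 := by
      intro w
      calc _ ≤ ∑ _f : Fin 0 → H, (1 : ℝ) := Finset.sum_le_sum fun f _ => ind_le_one _
        _ = 1 := by simp
    calc _ ≤ ∑ _w : (∀ k, V k), (1 : ℝ) := Finset.sum_le_sum fun w _ => this w
      _ = _ := by simp [Finset.card_univ]
  | succ T ih =>
    have ih' := ih (fun t ht => hB t (Nat.lt_succ_of_lt ht))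
    rcases Nat.eq_zero_or_pos (Fintype.card (∀ k, V k)) with h0 | hpos
    · have : IsEmpty (∀ k, V k) := Fintype.card_eq_zero_iff.mp h0
      simp
    have hpos' : (0 : ℝ) < (Fintype.card (∀ k, V k) : ℝ) := by exact_mod_cast hpos
    -- for one sequence `f` of length `T`
    have key : ∀ f : Fin T → H,
        ∑ h : H, ∑ w : (∀ k, V k),
          ind (fresh keys (T + 1) (Fin.cons h f : Fin (T + 1) → H) ∧
            (∀ i, E ((Fin.cons h f : Fin (T + 1) → H) i) w))
        ≤ B T * ∑ w : (∀ k, V k), ind (fresh keys T f ∧ ∀ i, E (f i) w) := by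
      intro f
      have hsplit : ∀ h : H, ∀ w : (∀ k, V k),
          ind (fresh keys (T + 1) (Fin.cons h f : Fin (T + 1) → H) ∧
            (∀ i, E ((Fin.cons h f : Fin (T + 1) → H) i) w))
          = ind (fresh keys T f ∧ ∀ i, E (f i) w) * ind (¬ keys h ⊆ used keys f ∧ E h w) := by
        intro h w
        rw [← ind_and]
        refine ind_congr ?_
        rw [fresh_cons, forall_cons]
        tauto
      simp_rw [hsplit]
      have hdep : ∀ w w' : (∀ k, V k),
          ind (fresh keys T f ∧ ∀ i, E (f i) (glue (used keys f) w w'))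
          = ind (fresh keys T f ∧ ∀ i, E (f i) w) := by
        intro w w'
        refine ind_congr (and_congr_right fun _ => forall_congr' fun i => ?_)
        refine hE _ _ _ fun k hk => ?_
        exact glue_of_mem _ w w' (keys_subset_used keys f i hk)
      -- average over the unrevealed part
      have havg : ∀ h : H,
          (Fintype.card (∀ k, V k) : ℝ) * ∑ w : (∀ k, V k),
            ind (fresh keys T f ∧ ∀ i, E (f i) w) * ind (¬ keys h ⊆ used keys f ∧ E h w)
          = ∑ w : (∀ k, V k), ∑ w' : (∀ k, V k), ind (fresh keys T f ∧ ∀ i, E (f i) w) *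
              ind (¬ keys h ⊆ used keys f ∧ E h (glue (used keys f) w w')) := by
        intro h
        rw [← sum_glue (used keys f)]
        refine Finset.sum_congr rfl fun w _ => ?_
        refine Finset.sum_congr rfl fun w' _ => ?_
        rw [hdep w w']
      have hmain : (Fintype.card (∀ k, V k) : ℝ) * ∑ h : H, ∑ w : (∀ k, V k),
            ind (fresh keys T f ∧ ∀ i, E (f i) w) * ind (¬ keys h ⊆ used keys f ∧ E h w)
          ≤ (Fintype.card (∀ k, V k) : ℝ) *
            (B T * ∑ w : (∀ k, V k), ind (fresh keys T f ∧ ∀ i, E (f i) w)) := by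
        rw [Finset.mul_sum]
        simp_rw [havg]
        rw [Finset.sum_comm]
        have h2 : (Fintype.card (∀ k, V k) : ℝ) *
            (B T * ∑ w : (∀ k, V k), ind (fresh keys T f ∧ ∀ i, E (f i) w))
            = ∑ w : (∀ k, V k), ind (fresh keys T f ∧ ∀ i, E (f i) w) *
              (B T * (Fintype.card (∀ k, V k) : ℝ)) := by
          rw [← Finset.sum_mul]; ring
        rw [h2]
        refine Finset.sum_le_sum fun w _ => ?_
        simp_rw [← Finset.mul_sum]
        by_cases hw : fresh keys T f ∧ ∀ i, E (f i) w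
        · rw [ind_pos hw, one_mul, one_mul]
          exact hB T (Nat.lt_succ_self T) f w hw.1 hw.2
        · rw [ind_neg hw]; simp
      exact le_of_mul_le_mul_left hmain hpos'
    -- sum over all sequences of length `T + 1`
    have hre : ∑ w : (∀ k, V k), ∑ f : Fin (T + 1) → H,
        ind (fresh keys (T + 1) f ∧ ∀ i, E (f i) w)
        = ∑ f : Fin T → H, ∑ h : H, ∑ w : (∀ k, V k),
          ind (fresh keys (T + 1) (Fin.cons h f : Fin (T + 1) → H) ∧
            (∀ i, E ((Fin.cons h f : Fin (T + 1) → H) i) w)) := by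
      rw [Finset.sum_comm]
      rw [← (Fin.consEquiv (fun _ : Fin (T + 1) => H)).sum_comp]
      rw [Fintype.sum_prod_type]
      rw [Finset.sum_comm]
      rfl
    rw [hre, Finset.prod_range_succ]
    calc _ ≤ ∑ f : Fin T → H, B T * ∑ w : (∀ k, V k), ind (fresh keys T f ∧ ∀ i, E (f i) w) :=
          Finset.sum_le_sum fun f _ => key f
      _ = B T * ∑ w : (∀ k, V k), ∑ f : Fin T → H, ind (fresh keys T f ∧ ∀ i, E (f i) w) := by
          rw [← Finset.mul_sum, Finset.sum_comm]
      _ ≤ B T * ((∏ t ∈ Finset.range T, B t) * (Fintype.card (∀ k, V k) : ℝ)) :=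
          mul_le_mul_of_nonneg_left ih' (hB0 T)
      _ = _ := by ring

omit [Fintype K] [Fintype (∀ k, V k)] [Fintype H] in
theorem card_used_le (keys : H → Finset K) {t : ℕ} (f : Fin t → H) (c : ℕ)
    (hc : ∀ i, (keys (f i)).card ≤ c) : (used keys f).card ≤ t * c := by
  classical
  have h1 : (used keys f).card ≤ ∑ i : Fin t, (keys (f i)).card := by
    unfold used
    convert Finset.card_biUnion_le
  calc (used keys f).card ≤ ∑ i : Fin t, (keys (f i)).card := h1
    _ ≤ ∑ _i : Fin t, c := Finset.sum_le_sum fun i _ => hc i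
    _ = t * c := by simp

omit [Fintype K] in
theorem pr_nonneg (S : (∀ k, V k) → Prop) : 0 ≤ pr S :=
  div_nonneg (Finset.sum_nonneg fun _ _ => ind_nonneg _) (Nat.cast_nonneg _)

omit [Fintype K] in
theorem pr_mono {S S' : (∀ k, V k) → Prop} (h : ∀ w, S w → S' w) : pr S ≤ pr S' := by
  unfold pr
  exact div_le_div_of_nonneg_right (Finset.sum_le_sum fun w _ => ind_mono (h w))
    (Nat.cast_nonneg _)

omit [Fintype K] in
theorem pr_union {ι : Type*} (I : Finset ι) (S : ι → (∀ k, V k) → Prop) :
    pr (fun w => ∃ n ∈ I, S n w) ≤ ∑ n ∈ I, pr (S n) := by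
  unfold pr
  rw [← Finset.sum_div]
  refine div_le_div_of_nonneg_right ?_ (Nat.cast_nonneg _)
  rw [Finset.sum_comm]
  refine Finset.sum_le_sum fun w _ => ?_
  by_cases h : ∃ n ∈ I, S n w
  · rw [ind_pos h]
    obtain ⟨n, hn, hs⟩ := h
    calc (1 : ℝ) = ind (S n w) := (ind_pos hs).symm
      _ ≤ ∑ n ∈ I, ind (S n w) :=
        Finset.single_le_sum (f := fun n => ind (S n w)) (fun i _ => ind_nonneg _) hn
  · rw [ind_neg h]
    exact Finset.sum_nonneg fun i _ => ind_nonneg _

omit [Fintype K] in
theorem pr_or (S S' : (∀ k, V k) → Prop) : pr (fun w => S w ∨ S' w) ≤ pr S + pr S' := by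
  unfold pr
  rw [← add_div]
  refine div_le_div_of_nonneg_right ?_ (Nat.cast_nonneg _)
  rw [← Finset.sum_add_distrib]
  refine Finset.sum_le_sum fun w _ => ?_
  by_cases h : S w
  · rw [ind_pos h, ind_pos (Or.inl h)]
    linarith [ind_nonneg (S' w)]
  · by_cases h' : S' w
    · rw [ind_pos h', ind_pos (Or.inr h')]
      linarith [ind_nonneg (S w)]
    · rw [ind_neg (not_or.2 ⟨h, h'⟩)]
      linarith [ind_nonneg (S w), ind_nonneg (S' w)]

omit [Fintype K] in
/-- an event of probability less than one is avoided by some point -/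
theorem exists_not_of_pr_lt_one [Nonempty (∀ k, V k)] (S : (∀ k, V k) → Prop)
    (h : pr S < 1) : ∃ w, ¬ S w := by
  by_contra hcon
  push Not at hcon
  have hpos : (0 : ℝ) < (Fintype.card (∀ k, V k) : ℝ) := by
    exact_mod_cast Fintype.card_pos
  have : pr S = 1 := by
    unfold pr
    rw [div_eq_one_iff_eq hpos.ne']
    rw [Finset.sum_congr rfl fun w _ => ind_pos (hcon w)]
    simp [Finset.card_univ]
  linarith

omit [Fintype K] in
/-- REVEAL LEMMA: chains of `T` valid hits, each with a new key, have probability at most the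
product of the conditional expected numbers -/
theorem pr_chain_le (keys : H → Finset K) (E : H → (∀ k, V k) → Prop)
    (hE : ∀ h w w', (∀ k ∈ keys h, w k = w' k) → (E h w ↔ E h w'))
    (B : ℕ → ℝ) (hB0 : ∀ t, 0 ≤ B t) (T : ℕ)
    (hB : ∀ t, t < T → ∀ f : Fin t → H, ∀ w : (∀ k, V k), fresh keys t f →
      (∀ i, E (f i) w) →
      ∑ h : H, pr (fun w' => ¬ keys h ⊆ used keys f ∧ E h (glue (used keys f) w w')) ≤ B t) :
    pr (fun w => ∃ f : Fin T → H, fresh keys T f ∧ ∀ i, E (f i) w)
      ≤ ∏ t ∈ Finset.range T, B t := by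
  rcases isEmpty_or_nonempty (∀ k, V k) with hemp | hne
  · have : pr (fun w : (∀ k, V k) => ∃ f : Fin T → H, fresh keys T f ∧ ∀ i, E (f i) w) = 0 := by
      unfold pr; simp
    rw [this]
    exact Finset.prod_nonneg fun t _ => hB0 t
  have hpos : (0 : ℝ) < (Fintype.card (∀ k, V k) : ℝ) := by
    exact_mod_cast Fintype.card_pos
  have hmain := sum_chains keys E hE B hB0 T (by
    intro t ht f w hf hw
    have h1 := hB t ht f w hf hw
    unfold pr at h1
    rw [← Finset.sum_div, div_le_iff₀ hpos] at h1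
    exact h1)
  unfold pr
  rw [div_le_iff₀ hpos]
  refine le_trans (Finset.sum_le_sum fun w _ => ?_) hmain
  by_cases h : ∃ f : Fin T → H, fresh keys T f ∧ ∀ i, E (f i) w
  · rw [ind_pos h]
    obtain ⟨f, hf⟩ := h
    calc (1 : ℝ) = ind (fresh keys T f ∧ ∀ i, E (f i) w) := (ind_pos hf).symm
      _ ≤ ∑ f : Fin T → H, ind (fresh keys T f ∧ ∀ i, E (f i) w) :=
        Finset.single_le_sum (f := fun f : Fin T → H => ind (fresh keys T f ∧ ∀ i, E (f i) w))
          (fun i _ => ind_nonneg _) (Finset.mem_univ f)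
  · rw [ind_neg h]
    exact Finset.sum_nonneg fun f _ => ind_nonneg _

omit [Fintype K] [Fintype (∀ k, V k)] [Fintype H] in
/-- without a chain of length `T` all valid hits read only the keys of fewer than `T` of them -/
theorem exists_maximal (keys : H → Finset K) (S : H → Prop) (T : ℕ)
    (hno : ¬ ∃ f : Fin T → H, fresh keys T f ∧ ∀ i, S (f i)) :
    ∃ t, t < T ∧ ∃ f : Fin t → H, fresh keys t f ∧ (∀ i, S (f i)) ∧
      ∀ h, S h → keys h ⊆ used keys f := by
  by_contra hcon
  push Not at hcon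
  have hall : ∀ t, t ≤ T → ∃ f : Fin t → H, fresh keys t f ∧ ∀ i, S (f i) := by
    intro t
    induction t with
    | zero => intro _; exact ⟨fun i => i.elim0, trivial, fun i => i.elim0⟩
    | succ t ih =>
      intro ht
      obtain ⟨f, hf, hS⟩ := ih (by omega)
      obtain ⟨h, hh, hk⟩ := hcon t (by omega) f hf hS
      refine ⟨(Fin.cons h f : Fin (t + 1) → H), (fresh_cons keys h f).2 ⟨hk, hf⟩, ?_⟩
      intro i
      refine Fin.cases ?_ (fun j => ?_) i
      · simpa using hh
      · simpa using hS j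
  exact hno (hall T le_rfl)

omit [Fintype K] in
/-- uniform form: one bound `B` per step, `T` steps, over a finite set of targets `n`; the
hits may depend on `n`, the values `w` are common. If `∑ n, B n ^ T n` and the probability of a
further bad event add up to less than one, some `w` is good for all `n`. -/
theorem exists_good {ι : Type*} [Nonempty (∀ k, V k)] (I : Finset ι)
    (Hn : ι → Type*) [∀ n, Fintype (Hn n)]
    (keys : ∀ n, Hn n → Finset K) (E : ∀ n, Hn n → (∀ k, V k) → Prop)
    (hE : ∀ n h w w', (∀ k ∈ keys n h, w k = w' k) → (E n h w ↔ E n h w'))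
    (B : ι → ℝ) (hB0 : ∀ n, 0 ≤ B n) (T : ι → ℕ)
    (hB : ∀ n ∈ I, ∀ t, t < T n → ∀ f : Fin t → Hn n, ∀ w : (∀ k, V k),
      fresh (keys n) t f → (∀ i, E n (f i) w) →
      ∑ h : Hn n, pr (fun w' => ¬ keys n h ⊆ used (keys n) f ∧
        E n h (glue (used (keys n) f) w w')) ≤ B n)
    (S : (∀ k, V k) → Prop) (hS : pr S + ∑ n ∈ I, B n ^ T n < 1) :
    ∃ w, ¬ S w ∧ ∀ n ∈ I, ∃ t, t < T n ∧ ∃ f : Fin t → Hn n,
      fresh (keys n) t f ∧ (∀ i, E n (f i) w) ∧ ∀ h, E n h w → keys n h ⊆ used (keys n) f := by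
  have h1 : pr (fun w => S w ∨ ∃ n ∈ I, ∃ f : Fin (T n) → Hn n,
      fresh (keys n) (T n) f ∧ ∀ i, E n (f i) w) < 1 := by
    refine lt_of_le_of_lt (pr_or _ _) (lt_of_le_of_lt ?_ hS)
    refine add_le_add le_rfl ((pr_union I _).trans (Finset.sum_le_sum fun n hn => ?_))
    have := pr_chain_le (keys n) (E n) (hE n) (fun _ => B n) (fun _ => hB0 n) (T n) (hB n hn)
    simpa using this
  obtain ⟨w, hw⟩ := exists_not_of_pr_lt_one _ h1
  rw [not_or] at hw
  refine ⟨w, hw.1, fun n hn => ?_⟩
  exact exists_maximal (keys n) (fun h => E n h w) (T n) (fun h => hw.2 ⟨n, hn, h⟩)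

section Restrict

variable {L : Type*} [Fintype L] [DecidableEq L] {Z : L → Type*} [∀ k, Fintype (Z k)]
  [∀ k, Nonempty (Z k)]

/-- an event which reads only the keys of `Q` has its uniform probability over those keys -/
theorem pr_restrict (Q : Finset L)
    (F : (∀ k : {k // k ∈ Q}, Z k) → Prop) :
    pr (fun w : (∀ k, Z k) => F (fun k => w k))
      = (∑ v : (∀ k : {k // k ∈ Q}, Z k), ind (F v)) /
        (Fintype.card (∀ k : {k // k ∈ Q}, Z k) : ℝ) := by
  unfold pr
  have h1 : ∑ w : (∀ k, Z k), ind (F (fun k => w k))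
      = (Fintype.card (∀ k : {k // ¬ k ∈ Q}, Z k) : ℝ) *
        ∑ v : (∀ k : {k // k ∈ Q}, Z k), ind (F v) := by
    rw [← (Equiv.piEquivPiSubtypeProd (fun k => k ∈ Q) Z).symm.sum_comp]
    rw [Fintype.sum_prod_type]
    rw [Finset.mul_sum]
    refine Finset.sum_congr rfl fun v _ => ?_
    have : ∀ u : (∀ k : {k // ¬ k ∈ Q}, Z k),
        ind (F (fun k => (Equiv.piEquivPiSubtypeProd (fun k => k ∈ Q) Z).symm (v, u) k))
          = ind (F v) := by
      intro u
      refine ind_congr ?_
      have : (fun k : {k // k ∈ Q} =>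
          (Equiv.piEquivPiSubtypeProd (fun k => k ∈ Q) Z).symm (v, u) k) = v := by
        funext k
        simp [Equiv.piEquivPiSubtypeProd]
      rw [this]
    rw [Finset.sum_congr rfl fun u _ => this u]
    simp [Finset.card_univ]
  have h2 : (Fintype.card (∀ k, Z k) : ℝ) = (Fintype.card (∀ k : {k // ¬ k ∈ Q}, Z k) : ℝ) *
      (Fintype.card (∀ k : {k // k ∈ Q}, Z k) : ℝ) := by
    rw [Fintype.card_congr (Equiv.piEquivPiSubtypeProd (fun k => k ∈ Q) Z), Fintype.card_prod]
    push_cast
    ring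
  have h3 : (Fintype.card (∀ k : {k // ¬ k ∈ Q}, Z k) : ℝ) ≠ 0 := by
    have : 0 < Fintype.card (∀ k : {k // ¬ k ∈ Q}, Z k) := Fintype.card_pos
    exact_mod_cast this.ne'
  rw [h1, h2, mul_div_mul_left _ _ h3]

end Restrict

end Helper53.TF
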